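import Pool.Agent.H39.Newt.Stmts

/-!
# Project NEWTON, module LEM: products of linear forms
-/

set_option autoImplicit false

namespace Pool.Newt

open MvPolynomial Pool.Agent.H39.MonoR Pool.Agent.H75.Mono

section

variable {I : Type} [Fintype I]

theorem LEM_noeth : IsNoetherianRing (AddMonoidAlgebra ℚ (I → ℤ)) := by
  haveI : AddGroup.FG (I → ℤ) := Module.Finite.iff_addGroup_fg.1 inferInstance
  haveI : AddMonoid.FG (I → ℤ) := AddGroup.fg_iff_addMonoid_fg.1 inferInstance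
  exact Algebra.FiniteType.isNoetherianRing ℚ _

/-- the unit `x^β` -/
noncomputable def LEM_u (β : I → ℤ) : (AddMonoidAlgebra ℚ (I → ℤ))ˣ where
  val := AddMonoidAlgebra.single β 1
  inv := AddMonoidAlgebra.single (-β) 1
  val_inv := by
    rw [AddMonoidAlgebra.single_mul_single, add_neg_cancel, one_mul]
    rfl
  inv_val := by
    rw [AddMonoidAlgebra.single_mul_single, neg_add_cancel, one_mul]
    rfl

theorem LEM_u_add (β γ : I → ℤ) : LEM_u (β + γ) = LEM_u β * LEM_u γ := by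
  ext1
  simp [LEM_u, AddMonoidAlgebra.single_mul_single]

theorem LEM_u_zero : LEM_u (0 : I → ℤ) = 1 := by
  ext1
  rfl

/-- as a homomorphism -/
noncomputable def LEM_h : Multiplicative (I → ℤ) →* (AddMonoidAlgebra ℚ (I → ℤ))ˣ where
  toFun β := LEM_u β.toAdd
  map_one' := LEM_u_zero
  map_mul' β γ := LEM_u_add _ _

theorem LEM_prod [DecidableEq I] (β : I → ℤ) :
    ∏ i, (LEM_u (Pi.single i (1 : ℤ) : I → ℤ)) ^ β i = LEM_u β := by
  have e1 : ∀ i, (LEM_u (Pi.single i (1 : ℤ) : I → ℤ)) ^ β i =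
      LEM_h (Multiplicative.ofAdd (β i • (Pi.single i (1 : ℤ) : I → ℤ))) := by
    intro i
    rw [ofAdd_zsmul, map_zpow]
    rfl
  simp only [e1]
  rw [← map_prod, ← ofAdd_sum]
  have e2 : ∑ i, β i • (Pi.single i (1 : ℤ) : I → ℤ) = β := by
    ext j
    rw [Finset.sum_apply, Finset.sum_eq_single j]
    · simp
    · intro i _ hij
      simp [Pi.single_eq_of_ne hij.symm]
    · simp
  rw [e2]
  rfl

end

/-- Module LEM. -/
theorem sLem (hNil : SNil) (hKru : SKru) (hGrp : SGrp) : SLem := by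
  classical
  intro I D _ _ _ β B hβ1 hβ2 hc hhc 𝒢 h𝒢 hmem
  set R := AddMonoidAlgebra ℚ (I → ℤ) with hR
  haveI : IsNoetherianRing R := LEM_noeth
  let ε : R →ₐ[ℚ] ℚ := AddMonoidAlgebra.lift ℚ ℚ (I → ℤ) 1
  have hε : ∀ m, ε (AddMonoidAlgebra.single m 1) = 1 := by
    intro m
    simp only [ε]
    rw [AddMonoidAlgebra.lift_single]
    simp
  let m : Ideal R := RingHom.ker (ε : R →+* ℚ)
  have hmm : ∀ x : R, x ∈ m ↔ ε x = 0 := fun x => RingHom.mem_ker
  let gd : D → R := fun d => AddMonoidAlgebra.single (β d) 1 - 1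
  let J : Ideal R := Ideal.span {g | ∃ S ∈ 𝒢, g = ∏ d ∈ S, gd d}
  let a : R := ∏ d ∈ Bᶜ, gd d
  have key : ∀ N : ℕ, a ∈ J ⊔ m ^ N := by
    intro N
    let A := R ⧸ (m ^ N)
    let π : R →ₐ[ℚ] A := Ideal.Quotient.mkₐ ℚ (m ^ N)
    let x : I → Aˣ := fun i => Units.map (π : R →* A) (LEM_u (Pi.single i (1 : ℤ)))
    have hx : ∀ i, IsNilpotent ((x i : A) - 1) := by
      intro i
      refine ⟨N, ?_⟩
      have e1 : ((x i : A) - 1) = π (AddMonoidAlgebra.single (Pi.single i (1 : ℤ)) 1 - 1) := by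
        rw [map_sub, map_one]
        rfl
      rw [e1, ← map_pow]
      refine Ideal.Quotient.eq_zero_iff_mem.2 (Ideal.pow_mem_pow ?_ N)
      rw [hmm, map_sub, map_one, hε, sub_self]
    obtain ⟨L, hL⟩ := hNil I A x hx
    have hprod : ∀ γ : I → ℤ, ((∏ i, x i ^ γ i : Aˣ) : A) = π (AddMonoidAlgebra.single γ 1) := by
      intro γ
      have e1 : (∏ i, x i ^ γ i : Aˣ) = Units.map (π : R →* A) (LEM_u γ) := by
        rw [← LEM_prod γ, map_prod]
        refine Finset.prod_congr rfl fun i _ => ?_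
        rw [map_zpow]
      rw [e1]
      rfl
    have hlf : ∀ d : D, ∃ v : Aˣ, aeval L (lf (β d)) = v * π (gd d) := by
      intro d
      obtain ⟨v, hv⟩ := hL (β d)
      refine ⟨v, ?_⟩
      rw [hprod] at hv
      have e1 : aeval L (lf (β d)) = ∑ i, ((β d i : ℤ) : A) * L i := by
        unfold lf
        rw [map_sum]
        refine Finset.sum_congr rfl fun i _ => ?_
        rw [map_mul, aeval_C, aeval_X]
        congr 1
      rw [e1, hv]
      simp only [gd, map_sub, map_one]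
    choose v hv using hlf
    have hpr : ∀ S : Finset D, ∃ w : Aˣ, aeval L (∏ d ∈ S, lf (β d)) = w * π (∏ d ∈ S, gd d) := by
      intro S
      refine ⟨∏ d ∈ S, v d, ?_⟩
      rw [map_prod, map_prod, Units.coe_prod, ← Finset.prod_mul_distrib]
      exact Finset.prod_congr rfl fun d _ => hv d
    -- the image of the membership
    have h1 : aeval L (∏ d ∈ Bᶜ, lf (β d) : MvPolynomial I ℚ) ∈
        Ideal.map (aeval L : MvPolynomial I ℚ →ₐ[ℚ] A) (Ideal.span
          {g | ∃ S ∈ 𝒢, g = ∏ d ∈ S, lf (β d)}) := Ideal.mem_map_of_mem _ hmem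
    have h2 : Ideal.map (aeval L : MvPolynomial I ℚ →ₐ[ℚ] A) (Ideal.span
        {g | ∃ S ∈ 𝒢, g = ∏ d ∈ S, lf (β d)}) ≤ Ideal.map π J := by
      rw [Ideal.map_span, Ideal.span_le]
      rintro _ ⟨_, ⟨S, hS, rfl⟩, rfl⟩
      obtain ⟨w, hw⟩ := hpr S
      rw [hw]
      exact Ideal.mul_mem_left _ _ (Ideal.mem_map_of_mem _ (Ideal.subset_span ⟨S, hS, rfl⟩))
    obtain ⟨w, hw⟩ := hpr Bᶜ
    have h3 : π a ∈ Ideal.map π J := by
      have h4 := h2 h1
      rw [hw] at h4
      have h5 := Ideal.mul_mem_left (Ideal.map π J) ((w⁻¹ : Aˣ) : A) h4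
      rw [← mul_assoc, Units.inv_mul, one_mul] at h5
      exact h5
    have hsurj : Function.Surjective π := Ideal.Quotient.mkₐ_surjective ℚ _
    obtain ⟨j, hj, hja⟩ := (Ideal.mem_map_iff_of_surjective (π : R →ₐ[ℚ] A) hsurj).1 h3
    have h6 : a - j ∈ m ^ N := by
      have : π (a - j) = 0 := by rw [map_sub, hja, sub_self]
      exact Ideal.Quotient.eq_zero_iff_mem.1 this
    have h7 : a = j + (a - j) := by ring
    rw [h7]
    exact Submodule.add_mem_sup hj h6
  obtain ⟨u, hu1, hu2⟩ := hKru R J m a key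
  have hεu : ε u ≠ 0 := by
    have := (hmm _).1 hu1
    rw [map_sub, map_one, sub_eq_zero] at this
    rw [this]
    exact one_ne_zero
  refine hGrp (I → ℤ) D β B ?_ ?_ hc hhc 𝒢 ?_ ε hε u hεu hu2
  · intro ν hν
    refine hβ1 ν fun i => ?_
    have := congrFun hν i
    simpa [Finset.sum_apply] using this
  · intro ν hν hν2
    refine hβ2 ν hν fun i => ?_
    have := congrFun hν2 i
    simpa [Finset.sum_apply] using this
  · intro S hS
    obtain ⟨ψ, h1, h2⟩ := h𝒢 S hS
    let Ψ : (I → ℤ) →+ ℤ :=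
      { toFun := fun v => ∑ i, ψ i * v i
        map_zero' := by simp
        map_add' := fun v w => by simp [mul_add, Finset.sum_add_distrib] }
    refine ⟨Ψ, ?_, h2⟩
    have e : Ψ (∑ d ∈ B, hc d • β d) = ∑ i, ψ i * ∑ d ∈ B, (hc d : ℤ) * β d i := by
      show ∑ i, ψ i * (∑ d ∈ B, hc d • β d) i = _
      refine Finset.sum_congr rfl fun i _ => ?_
      rw [Finset.sum_apply]
      simp
    rw [e]
    exact h1

end Pool.Newt
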