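import Pool.Agent.H39.Newt.Stmts
import Pool.Agent.H39.Newt.Base

/-!
# Board newt, block STA: the decomposition of `ℕ^σ`
-/

set_option autoImplicit false

namespace Pool.Newt

namespace STA

variable {σ I : Type} [Fintype σ]

/-- the vectors -/
noncomputable def vec [DecidableEq σ] {r : ℕ} (w : Fin r → σ → ℕ) (Fr : σ → Prop) :
    Fin r ⊕ {j // Fr j} → σ → ℕ :=
  Sum.elim w (fun j => Pi.single (j : σ) 1)

open Classical in
/-- the free part -/
noncomputable def fp {r : ℕ} (Fr : σ → Prop) (m : Fin r ⊕ {j // Fr j} → ℕ) (j : σ) : ℕ :=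
  if h : Fr j then m (Sum.inr ⟨j, h⟩) else 0

open Classical in
theorem sum_vec {r : ℕ} (w : Fin r → σ → ℕ) (Fr : σ → Prop) (m : Fin r ⊕ {j // Fr j} → ℕ)
    (j : σ) : ∑ v, m v * vec w Fr v j = ∑ s, m (Sum.inl s) * w s j + fp Fr m j := by
  rw [Fintype.sum_sum_type]
  congr 1
  unfold fp
  simp only [vec, Sum.elim_inr]
  split_ifs with h
  · rw [Finset.sum_eq_single ⟨j, h⟩]
    · simp
    · intro b _ hb
      have : j ≠ (b : σ) := fun e => hb (Subtype.ext e.symm)
      rw [Pi.single_eq_of_ne this, mul_zero]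
    · intro h
      exact absurd (Finset.mem_univ _) h
  · refine Finset.sum_eq_zero fun b _ => ?_
    have : j ≠ (b : σ) := fun e => h (e ▸ b.2)
    rw [Pi.single_eq_of_ne this, mul_zero]

open Classical in
/-- indices of the rigid weights in use -/
abbrev SL {r : ℕ} {Fr : σ → Prop} (S : Finset (Fin r ⊕ {j // Fr j})) : Type :=
  {s : Fin r // Sum.inl s ∈ S}

open Classical in
/-- the box -/
noncomputable def bx {r : ℕ} (w : Fin r → σ → ℕ) (Fr : σ → Prop) (u : σ → ℕ)
    (S : Finset (Fin r ⊕ {j // Fr j})) : NBox σ where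
  u := u
  r := Fintype.card (SL S)
  w := fun s => w ((Fintype.equivFin (SL S)).symm s).1
  F := Finset.univ.filter fun j => ∃ h : Fr j, Sum.inr ⟨j, h⟩ ∈ S

open Classical in
theorem sum_w {r : ℕ} (w : Fin r → σ → ℕ) (Fr : σ → Prop)
    (S : Finset (Fin r ⊕ {j // Fr j})) (m : Fin r ⊕ {j // Fr j} → ℕ)
    (hm : ∀ v, v ∉ S → m v = 0) (j : σ) :
    ∑ s : Fin (Fintype.card (SL S)), m (Sum.inl ((Fintype.equivFin (SL S)).symm s).1) *
      w ((Fintype.equivFin (SL S)).symm s).1 j = ∑ s, m (Sum.inl s) * w s j := by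
  rw [(Fintype.equivFin (SL S)).symm.sum_comp (fun s : SL S => m (Sum.inl s.1) * w s.1 j)]
  rw [← Finset.sum_subtype (Finset.univ.filter fun s : Fin r => Sum.inl s ∈ S)
    (fun s => by simp) (fun s => m (Sum.inl s) * w s j)]
  refine Finset.sum_subset (Finset.filter_subset _ _) fun s _ hs => ?_
  have : Sum.inl s ∉ S := fun h => hs (Finset.mem_filter.2 ⟨Finset.mem_univ _, h⟩)
  rw [hm _ this, zero_mul]

theorem one_type (hFge : SFge) (hStd : SStd) [Fintype I] [Nonempty I] (a : I → σ → ℕ)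
    (x₀ : σ → ℕ) : ∃ (n : ℕ) (b : Fin n → NBox σ),
      (∀ β, (b β).Adm a ∧ face a (b β).u = face a x₀) ∧ ∀ x : σ → ℕ, face a x = face a x₀ →
      ∃! y : (Σ β : Fin n, (Fin (b β).r → ℕ)) × (σ → ℕ),
        (∀ j, j ∉ (b y.1.1).F → y.2 j = 0) ∧ x = (b y.1.1).pt y.1.2 + y.2 := by
  classical
  obtain ⟨U, r, w, hw, hU, hx⟩ := hFge σ I a x₀
  obtain ⟨Fr, hFr⟩ : ∃ Fr : σ → Prop, ∀ j, Fr j ↔ ∀ i ∈ face a x₀, a i j = 0 :=
    ⟨_, fun j => Iff.rfl⟩
  obtain ⟨n, u, S, hu, hS⟩ := hStd σ (Fin r ⊕ {j // Fr j}) U (vec w Fr)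
  have hface : ∀ β, face a (u β) = face a x₀ := by
    intro β
    obtain ⟨u0, hu0, m, hm⟩ := hu β
    let b0 : NBox σ := ⟨u0, r, w, Finset.univ.filter Fr⟩
    have hb0 : b0.Adm a := by
      refine ⟨fun s => ⟨(hw s).1, (hw s).2.1, ?_⟩, fun j hj i hi => ?_⟩
      · show face a u0 ⊆ face a (w s)
        rw [hU u0 hu0]
        exact (hw s).2.2
      · have h1 : i ∈ face a u0 := hi
        rw [hU u0 hu0] at h1
        exact (hFr j).1 (Finset.mem_filter.1 hj).2 i h1
    have h2 := (NBox.face_pt hb0 (fun s => m (Sum.inl s)) (p := fp Fr m) (fun j hj => by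
      have : ¬ Fr j := fun h => hj (Finset.mem_filter.2 ⟨Finset.mem_univ _, h⟩)
      simp [fp, this])).1
    have h3 : u β = b0.pt (fun s => m (Sum.inl s)) + fp Fr m := by
      funext j
      rw [hm j, sum_vec]
      show _ = u0 j + ∑ s, m (Sum.inl s) * w s j + fp Fr m j
      ring
    rw [h3, h2]
    exact hU u0 hu0
  refine ⟨n, fun β => bx w Fr (u β) (S β), fun β => ⟨⟨fun s => ?_, fun j hj i hi => ?_⟩,
    hface β⟩, fun x hxf => ?_⟩
  · refine ⟨(hw _).1, (hw _).2.1, ?_⟩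
    show face a (u β) ⊆ _
    rw [hface β]
    exact (hw _).2.2
  · have h1 : i ∈ face a (u β) := hi
    rw [hface β] at h1
    obtain ⟨h, -⟩ := (Finset.mem_filter.1 hj).2
    exact (hFr j).1 h i h1
  · obtain ⟨u0, hu0, m, p, hp, hxe⟩ := hx x hxf
    obtain ⟨y, ⟨hy1, hy2⟩, hyu⟩ := hS x ⟨u0, hu0, Sum.elim m (fun j => p j), fun j => by
      rw [sum_vec, hxe j]
      have : fp Fr (Sum.elim m (fun j : {j // Fr j} => p j)) j = p j := by
        unfold fp
        split_ifs with h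
        · rfl
        · by_contra h0
          exact h ((hFr j).2 (hp j (Ne.symm h0)))
      rw [this]
      simp only [Sum.elim_inl]
      ring⟩
    let G : Fin n × (Fin r ⊕ {j // Fr j} → ℕ) →
        (Σ β : Fin n, (Fin (bx w Fr (u β) (S β)).r → ℕ)) × (σ → ℕ) := fun y =>
      (⟨y.1, fun s => y.2 (Sum.inl ((Fintype.equivFin (SL (S y.1))).symm s).1)⟩, fp Fr y.2)
    let H : (Σ β : Fin n, (Fin (bx w Fr (u β) (S β)).r → ℕ)) × (σ → ℕ) →
        Fin n × (Fin r ⊕ {j // Fr j} → ℕ) := fun z =>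
      (z.1.1, Sum.elim (fun s => if h : Sum.inl s ∈ S z.1.1 then
        z.1.2 (Fintype.equivFin (SL (S z.1.1)) ⟨s, h⟩) else 0) (fun j => z.2 j))
    have hGH : ∀ z, (∀ j, j ∉ (bx w Fr (u z.1.1) (S z.1.1)).F → z.2 j = 0) → G (H z) = z := by
      rintro ⟨⟨β, m'⟩, p'⟩ hz
      refine Prod.ext ?_ ?_
      · show (⟨β, _⟩ : Σ β : Fin n, (Fin (bx w Fr (u β) (S β)).r → ℕ)) = ⟨β, m'⟩
        congr 1
        funext s
        show (if h : Sum.inl ((Fintype.equivFin (SL (S β))).symm s).1 ∈ S β then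
          m' (Fintype.equivFin (SL (S β)) ⟨((Fintype.equivFin (SL (S β))).symm s).1, h⟩) else 0)
          = m' s
        rw [dif_pos ((Fintype.equivFin (SL (S β))).symm s).2]
        congr 1
        exact (Fintype.equivFin (SL (S β))).apply_symm_apply s
      · funext j
        show fp Fr _ j = p' j
        unfold fp
        split_ifs with h
        · rfl
        · exact (hz j fun hj => h (Finset.mem_filter.1 hj).2.choose).symm
    refine ⟨G y, ⟨fun j hj => ?_, ?_⟩, fun z hz => ?_⟩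
    · show fp Fr y.2 j = 0
      unfold fp
      split_ifs with h
      · refine hy1 _ fun h' => hj (Finset.mem_filter.2 ⟨Finset.mem_univ _, h, h'⟩)
      · rfl
    · funext j
      rw [hy2 j, sum_vec, ← sum_w w Fr (S y.1) y.2 hy1 j, ← add_assoc]
      rfl
    · have hHz : H z = y := by
        refine hyu _ ⟨fun v hv => ?_, fun j => ?_⟩
        · rcases v with s | j
          · show (if h : Sum.inl s ∈ S z.1.1 then _ else 0) = 0
            exact dif_neg hv
          · refine hz.1 j fun hj => hv ?_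
            obtain ⟨h, h'⟩ := (Finset.mem_filter.1 hj).2
            exact h'
        · have hv0 : ∀ v, v ∉ S z.1.1 → (H z).2 v = 0 := by
            intro v hv
            rcases v with s | j
            · show (if h : Sum.inl s ∈ S z.1.1 then _ else 0) = 0
              exact dif_neg hv
            · refine hz.1 j fun hj => hv ?_
              obtain ⟨h, h'⟩ := (Finset.mem_filter.1 hj).2
              exact h'
          have h1 := congrFun hz.2 j
          rw [h1, sum_vec, ← sum_w w Fr (S z.1.1) (H z).2 hv0 j, ← add_assoc]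
          have h2 := hGH z hz.1
          conv_lhs => rw [← h2]
          rfl
      rw [← hHz]
      exact (hGH z hz.1).symm

end STA

theorem sSta (hFge : SFge) (hStd : SStd) : SSta := by
  intro σ I _ _ _ a
  classical
  let T := {τ : Set I // ∃ x : σ → ℕ, face a x = τ}
  have hne : ∀ t : T, ∃ x : σ → ℕ, face a x = t.1 := fun t => t.2
  choose x₀ hx₀ using hne
  have hone := fun t : T => STA.one_type hFge hStd a (x₀ t)
  choose n b hb hd using hone
  haveI : Fintype T := Fintype.ofFinite T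
  let B := Σ t : T, Fin (n t)
  let e : Fin (Fintype.card B) ≃ B := (Fintype.equivFin B).symm
  let bB : B → NBox σ := fun β => b β.1 β.2
  refine ⟨Fintype.card B, fun β => bB (e β), fun β => (hb _ _).1, fun x => ?_⟩
  let E := (Equiv.sigmaCongrLeft (β := fun β : B => (Fin (bB β).r → ℕ)) e)
  have key : ∃! y : (Σ β : B, (Fin (bB β).r → ℕ)) × (σ → ℕ),
      (∀ j, j ∉ (bB y.1.1).F → y.2 j = 0) ∧ x = (bB y.1.1).pt y.1.2 + y.2 := by
    let t : T := ⟨face a x, x, rfl⟩
    obtain ⟨y, hy, hyu⟩ := hd t x (hx₀ t).symm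
    refine ⟨(⟨⟨t, y.1.1⟩, y.1.2⟩, y.2), hy, ?_⟩
    rintro ⟨⟨⟨t', β⟩, m⟩, p⟩ ⟨h1, h2⟩
    have h3 := (NBox.face_pt (hb t' β).1 m (p := p) h1).1
    have h4 : t' = t := by
      refine Subtype.ext ?_
      show t'.1 = face a x
      rw [h2, ← hx₀ t', ← (hb t' β).2]
      exact h3.symm
    subst h4
    have h5 := hyu (⟨β, m⟩, p) ⟨h1, h2⟩
    rw [← h5]
  exact (Equiv.existsUnique_congr (Equiv.prodCongr E (Equiv.refl (σ → ℕ)))
    (fun {z} => Iff.rfl)).2 key

end Pool.Newt
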