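import Pool.Agent.H39.Newt.Stmts

/-!
# Project NEWTON, module VAR: variation of one component
-/

set_option autoImplicit false
set_option linter.unusedSectionVars false

namespace Pool.Newt

open MvPolynomial Pool.Agent.H39.MonoR Pool.Agent.H75.Mono

theorem VAR_pow (y η : PowerSeries ℂ) {q : ℕ} (hq : 0 < q) (n : ℕ) :
    ∃ W : PowerSeries ℂ, (y + PowerSeries.X ^ q * η) ^ n = y ^ n + PowerSeries.X ^ q * W ∧
      PowerSeries.constantCoeff W = (n : ℂ) * (PowerSeries.constantCoeff y) ^ (n - 1) *
        PowerSeries.constantCoeff η := by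
  have hX : PowerSeries.constantCoeff ((PowerSeries.X : PowerSeries ℂ) ^ q) = 0 := by
    rw [map_pow, PowerSeries.constantCoeff_X, zero_pow hq.ne']
  induction n with
  | zero => exact ⟨0, by simp, by simp⟩
  | succ n ih =>
    obtain ⟨W, h1, h2⟩ := ih
    refine ⟨W * y + y ^ n * η + PowerSeries.X ^ q * (W * η), ?_, ?_⟩
    · rw [pow_succ, h1]
      ring
    · rw [map_add, map_add, map_mul, map_mul, map_mul, hX, h2, zero_mul, add_zero, map_pow]
      rcases Nat.eq_zero_or_pos n with h | h
      · subst h
        simp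
      · have e : (PowerSeries.constantCoeff y) ^ n =
            (PowerSeries.constantCoeff y) ^ (n - 1) * PowerSeries.constantCoeff y := by
          rw [← pow_succ]
          congr 1
          omega
        rw [Nat.add_sub_cancel, e]
        push_cast
        ring

section

variable {k : Type} [Field k] [Algebra k ℂ] {σ I : Type} [Fintype σ] [Fintype I]

theorem VAR_aeval (a : I → σ → ℕ) (c : I → k) (x : σ → PowerSeries ℂ) :
    aeval x (poly a c) = ∑ i, PowerSeries.C (algebraMap k ℂ (c i)) * ∏ j, x j ^ a i j := by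
  unfold poly
  rw [map_sum]
  refine Finset.sum_congr rfl fun i _ => ?_
  rw [aeval_monomial, Finsupp.prod_fintype _ _ (fun _ => pow_zero _),
    PowerSeries.algebraMap_apply]
  rfl

theorem VAR_mono (u : σ → ℕ) (y : σ → PowerSeries ℂ) (e : σ → ℕ) :
    ∏ j, (PowerSeries.X ^ u j * y j) ^ e j = PowerSeries.X ^ (dot u e) * ∏ j, y j ^ e j := by
  unfold dot
  rw [← Finset.prod_pow_eq_pow_sum, ← Finset.prod_mul_distrib]
  refine Finset.prod_congr rfl fun j _ => ?_
  rw [mul_pow, pow_mul]

open Classical in
theorem VAR_pd (a : I → σ → ℕ) (c : I → k) (u : σ → ℕ) (j₀ : σ) (z : σ → ℂ) :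
    aeval z (pderiv j₀ (fpoly a c u)) = ∑ i, if i ∈ face a u then
      algebraMap k ℂ (c i) * ((a i j₀ : ℂ) * z j₀ ^ (a i j₀ - 1) *
        ∏ j ∈ Finset.univ.erase j₀, z j ^ a i j) else 0 := by
  unfold fpoly
  rw [map_sum, map_sum]
  refine Finset.sum_congr rfl fun i _ => ?_
  split_ifs with h
  · rw [pderiv_monomial, aeval_monomial, Finsupp.prod_fintype _ _ (fun _ => pow_zero _),
      ← Finset.mul_prod_erase Finset.univ _ (Finset.mem_univ j₀)]
    have e1 : ∏ j ∈ Finset.univ.erase j₀, z j ^ ((Finsupp.equivFunOnFinite.symm (a i) -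
        Finsupp.single j₀ 1 : σ →₀ ℕ) j) = ∏ j ∈ Finset.univ.erase j₀, z j ^ a i j := by
      refine Finset.prod_congr rfl fun j hj => ?_
      have hne := Finset.ne_of_mem_erase hj
      rw [Finsupp.tsub_apply, Finsupp.single_eq_of_ne hne]
      rfl
    rw [e1]
    simp only [Finsupp.tsub_apply, Finsupp.equivFunOnFinite_symm_apply_apply,
      Finsupp.single_eq_same, map_mul, map_natCast]
    ring
  · simp

end

/-- Module VAR. -/
theorem sVar : SVar := by
  classical
  intro k _ _ σ I _ _ _ a c u x hx j₀ q hq η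
  have hy : ∀ j, ∃ y : PowerSeries ℂ, x j = PowerSeries.X ^ u j * y := fun j =>
    PowerSeries.X_pow_dvd_iff.2 (hx j)
  choose y hy using hy
  have hz : ∀ j, PowerSeries.coeff (u j) (x j) = PowerSeries.constantCoeff (y j) := by
    intro j
    rw [hy j, PowerSeries.coeff_X_pow_mul' , if_pos le_rfl, Nat.sub_self]
    simp
  choose W hW1 hW2 using fun n => VAR_pow (y j₀) η hq n
  have hupd : Function.update x j₀ (x j₀ + PowerSeries.X ^ (u j₀ + q) * η) =
      fun j => PowerSeries.X ^ u j * Function.update y j₀ (y j₀ + PowerSeries.X ^ q * η) j := by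
    funext j
    by_cases hj : j = j₀
    · subst hj
      rw [Function.update_self, Function.update_self, hy, pow_add]
      ring
    · rw [Function.update_of_ne hj, Function.update_of_ne hj, hy]
  -- the difference
  set Z : I → PowerSeries ℂ := fun i => W (a i j₀) * ∏ j ∈ Finset.univ.erase j₀, y j ^ a i j
    with hZ
  have hdiff : aeval (Function.update x j₀ (x j₀ + PowerSeries.X ^ (u j₀ + q) * η)) (poly a c) =
      aeval x (poly a c) + ∑ i, PowerSeries.C (algebraMap k ℂ (c i)) *
        (PowerSeries.X ^ (dot u (a i) + q) * Z i) := by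
    rw [hupd, VAR_aeval, VAR_aeval, ← Finset.sum_add_distrib]
    refine Finset.sum_congr rfl fun i _ => ?_
    rw [VAR_mono, ← mul_add]
    congr 1
    have e1 : ∏ j, x j ^ a i j = PowerSeries.X ^ (dot u (a i)) * ∏ j, y j ^ a i j := by
      rw [← VAR_mono]
      exact Finset.prod_congr rfl fun j _ => by rw [hy j]
    rw [e1, ← Finset.mul_prod_erase Finset.univ _ (Finset.mem_univ j₀),
      ← Finset.mul_prod_erase Finset.univ (fun j => y j ^ a i j) (Finset.mem_univ j₀),
      Function.update_self, hW1]
    have e2 : ∏ j ∈ Finset.univ.erase j₀,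
        Function.update y j₀ (y j₀ + PowerSeries.X ^ q * η) j ^ a i j =
        ∏ j ∈ Finset.univ.erase j₀, y j ^ a i j := by
      refine Finset.prod_congr rfl fun j hj => ?_
      rw [Function.update_of_ne (Finset.ne_of_mem_erase hj)]
    rw [e2, pow_add]
    simp only [hZ]
    ring
  have hcoef : ∀ (l : ℕ) (i : I), PowerSeries.coeff l (PowerSeries.C (algebraMap k ℂ (c i)) *
      (PowerSeries.X ^ (dot u (a i) + q) * Z i)) = if dot u (a i) + q ≤ l then
        algebraMap k ℂ (c i) * PowerSeries.coeff (l - (dot u (a i) + q)) (Z i) else 0 := by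
    intro l i
    rw [PowerSeries.coeff_C_mul, PowerSeries.coeff_X_pow_mul']
    split_ifs
    · rfl
    · rw [mul_zero]
  constructor
  · intro l hl
    rw [hdiff, map_add, map_sum]
    have : ∑ i, PowerSeries.coeff l (PowerSeries.C (algebraMap k ℂ (c i)) *
        (PowerSeries.X ^ (dot u (a i) + q) * Z i)) = 0 := by
      refine Finset.sum_eq_zero fun i _ => ?_
      rw [hcoef, if_neg]
      have := Nw_le a u i
      omega
    rw [this, add_zero]
  · rw [hdiff, map_add, map_sum, VAR_pd, Finset.mul_sum]
    congr 1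
    refine Finset.sum_congr rfl fun i _ => ?_
    rw [hcoef]
    by_cases hi : i ∈ face a u
    · have h1 := (mem_face_iff a u i).1 hi
      rw [if_pos (by omega), if_pos hi, h1, Nat.sub_self, PowerSeries.coeff_zero_eq_constantCoeff]
      simp only [hZ]
      rw [map_mul, hW2, map_prod, hz j₀]
      have e3 : ∏ j ∈ Finset.univ.erase j₀, PowerSeries.constantCoeff (y j ^ a i j) =
          ∏ j ∈ Finset.univ.erase j₀, (PowerSeries.coeff (u j) (x j)) ^ a i j := by
        refine Finset.prod_congr rfl fun j _ => ?_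
        rw [map_pow, hz j]
      rw [e3]
      ring
    · have h1 := lt_of_not_mem_face hi
      rw [if_neg (by omega), if_neg hi, mul_zero]

end Pool.Newt
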