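import Pool.Agent.H39.Newt.Stmts

/-!
# Project NEWTON, module WEY: differential operators on monomials
-/

set_option autoImplicit false
set_option linter.unusedSectionVars false

namespace Pool.Newt

open MvPolynomial Pool.Agent.H39.MonoR Pool.Agent.H75.Mono

section

variable {σ : Type} [Fintype σ] {k : Type} [Field k]

/-- the property, with repetitions -/
def WEY_P (T : Module.End k (MvPolynomial σ k)) : Prop :=
  ∃ (ι : Type) (_ : Fintype ι) (γ : ι → σ → ℤ) (p : ι → MvPolynomial σ k), ∀ v : σ → ℕ,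
    T (xsh k v 0) = ∑ i, (eval (fun l => (v l : k)) (desc k (γ i) * p i)) • xsh k v (γ i)

theorem WEY_desc (γ : σ → ℤ) :
    desc k γ = ∏ l, ∏ i ∈ Finset.Ico (0 : ℤ) (-γ l), (X l - C (i : k)) := by
  unfold desc
  refine Finset.prod_congr rfl fun l _ => ?_
  refine Finset.prod_nbij (fun j : ℕ => (j : ℤ)) ?_ ?_ ?_ ?_
  · intro j hj
    rw [Finset.mem_range] at hj
    rw [Finset.mem_Ico]
    omega
  · intro a _ b _ h
    exact Int.ofNat.inj h
  · intro i hi
    rw [Finset.mem_coe, Finset.mem_Ico] at hi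
    refine ⟨i.toNat, ?_, ?_⟩
    · rw [Finset.mem_coe, Finset.mem_range]
      omega
    · simp [hi.1]
  · intro j _
    simp

/-- the shift -/
noncomputable def WEY_sh (γ : σ → ℤ) : MvPolynomial σ k →ₐ[k] MvPolynomial σ k :=
  aeval fun l => X l + C (γ l : k)

theorem WEY_sh_desc (γ γ' : σ → ℤ) : WEY_sh γ (desc k γ') =
    ∏ l, ∏ i ∈ Finset.Ico (-γ l) (-(γ l + γ' l)), (X l - C (i : k)) := by
  rw [WEY_desc, map_prod]
  refine Finset.prod_congr rfl fun l _ => ?_
  rw [map_prod]
  refine Finset.prod_nbij (fun i : ℤ => i - γ l) ?_ ?_ ?_ ?_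
  · intro j hj
    rw [Finset.mem_Ico] at hj ⊢
    omega
  · intro a _ b _ h
    simp only at h
    omega
  · intro i hi
    rw [Finset.mem_coe, Finset.mem_Ico] at hi
    refine ⟨i + γ l, ?_, ?_⟩
    · rw [Finset.mem_coe, Finset.mem_Ico]
      omega
    · simp
  · intro j _
    unfold WEY_sh
    rw [map_sub, aeval_X, aeval_C, Int.cast_sub, C_sub]
    rw [MvPolynomial.algebraMap_eq]
    ring

theorem WEY_dvd (γ γ' : σ → ℤ) :
    desc k (γ + γ') ∣ desc k γ * WEY_sh γ (desc k γ') := by
  classical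
  rw [WEY_sh_desc, WEY_desc, WEY_desc, ← Finset.prod_mul_distrib]
  refine Finset.prod_dvd_prod_of_dvd _ _ fun l _ => ?_
  have hd : Disjoint (Finset.Ico (0 : ℤ) (-γ l)) (Finset.Ico (-γ l) (-(γ l + γ' l))) :=
    Finset.Ico_disjoint_Ico_consecutive _ _ _
  rw [← Finset.prod_union hd]
  refine Finset.prod_dvd_prod_of_subset _ _ _ ?_
  intro i hi
  rw [Finset.mem_Ico, Pi.add_apply] at hi
  rw [Finset.mem_union, Finset.mem_Ico, Finset.mem_Ico]
  omega

theorem WEY_eval_sh (γ : σ → ℤ) (v : σ → ℕ) (hv : ∀ l, 0 ≤ (v l : ℤ) + γ l)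
    (q : MvPolynomial σ k) :
    eval (fun l => (v l : k)) (WEY_sh γ q) =
      eval (fun l => ((((v l : ℤ) + γ l).toNat : ℕ) : k)) q := by
  have e1 : ∀ l, ((((v l : ℤ) + γ l).toNat : ℕ) : k) = (v l : k) + (γ l : k) := by
    intro l
    have h1 : ((((v l : ℤ) + γ l).toNat : ℕ) : ℤ) = (v l : ℤ) + γ l := Int.toNat_of_nonneg (hv l)
    have h2 : (((((v l : ℤ) + γ l).toNat : ℕ) : ℤ) : k) = (v l : k) + (γ l : k) := by
      rw [h1]
      push_cast
      ring
    rw [← h2, Int.cast_natCast]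
  simp only [e1]
  unfold WEY_sh
  rw [← MvPolynomial.coe_aeval_eq_eval, ← MvPolynomial.coe_aeval_eq_eval]
  have : (aeval (R := k) fun l => (v l : k)).comp (aeval (R := k) fun l => (X l + C (γ l : k) :
      MvPolynomial σ k)) = aeval (R := k) fun l => (v l : k) + (γ l : k) := by
    apply MvPolynomial.algHom_ext
    intro l
    simp
  exact congrArg (fun f => f q) this

theorem WEY_desc_zero (γ : σ → ℤ) (v : σ → ℕ) {l : σ} (hl : (v l : ℤ) + γ l < 0) :
    eval (fun l => (v l : k)) (desc k γ) = 0 := by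
  rw [WEY_desc, map_prod]
  refine Finset.prod_eq_zero (Finset.mem_univ l) ?_
  rw [map_prod]
  refine Finset.prod_eq_zero (i := (v l : ℤ)) ?_ ?_
  · rw [Finset.mem_Ico]
    omega
  · simp

theorem WEY_xsh (v : σ → ℕ) (γ γ' : σ → ℤ) (hv : ∀ l, 0 ≤ (v l : ℤ) + γ l) :
    xsh k (fun l => ((v l : ℤ) + γ l).toNat) γ' = xsh k v (γ + γ') := by
  unfold xsh
  refine congrArg (fun s => monomial s (1 : k)) (Finsupp.ext fun l => ?_)
  simp only [Finsupp.equivFunOnFinite_symm_apply_apply, Pi.add_apply]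
  have := hv l
  omega

theorem WEY_xsh0 (v : σ → ℕ) (γ : σ → ℤ) :
    xsh k v γ = xsh k (fun l => ((v l : ℤ) + γ l).toNat) 0 := by
  unfold xsh
  refine congrArg (fun s => monomial s (1 : k)) (Finsupp.ext fun l => ?_)
  simp only [Finsupp.equivFunOnFinite_symm_apply_apply, Pi.zero_apply]
  omega

theorem WEY_mul {T T' : Module.End k (MvPolynomial σ k)} (h' : WEY_P T') (h : WEY_P T) :
    WEY_P (T' * T) := by
  classical
  obtain ⟨ι, _, γ, p, hp⟩ := h
  obtain ⟨ι', _, γ', p', hp'⟩ := h'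
  choose q hq using fun (j : ι) (i : ι') => (WEY_dvd (k := k) (γ j) (γ' i))
  refine ⟨ι × ι', inferInstance, fun x => γ x.1 + γ' x.2,
    fun x => q x.1 x.2 * p x.1 * WEY_sh (γ x.1) (p' x.2), fun v => ?_⟩
  rw [Module.End.mul_apply, hp, map_sum, Fintype.sum_prod_type]
  refine Finset.sum_congr rfl fun j _ => ?_
  rw [map_smul]
  have e1 : ∀ i, eval (fun l => (v l : k)) (desc k (γ j + γ' i) *
      (q j i * p j * WEY_sh (γ j) (p' i))) =
      eval (fun l => (v l : k)) (desc k (γ j) * p j) *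
        eval (fun l => (v l : k)) (WEY_sh (γ j) (desc k (γ' i) * p' i)) := by
    intro i
    rw [← map_mul]
    congr 1
    rw [map_mul]
    calc desc k (γ j + γ' i) * (q j i * p j * WEY_sh (γ j) (p' i)) =
        (desc k (γ j + γ' i) * q j i) * (p j * WEY_sh (γ j) (p' i)) := by ring
      _ = (desc k (γ j) * WEY_sh (γ j) (desc k (γ' i))) * (p j * WEY_sh (γ j) (p' i)) := by
        rw [← hq]
      _ = _ := by ring
  simp only [e1]
  by_cases hv : ∀ l, 0 ≤ (v l : ℤ) + γ j l
  · rw [WEY_xsh0 v (γ j), hp', Finset.smul_sum]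
    refine Finset.sum_congr rfl fun i _ => ?_
    rw [smul_smul, WEY_xsh v (γ j) (γ' i) hv, WEY_eval_sh (γ j) v hv]
  · push Not at hv
    obtain ⟨l, hl⟩ := hv
    have e2 : eval (fun l => (v l : k)) (desc k (γ j) * p j) = 0 := by
      rw [map_mul, WEY_desc_zero (γ j) v hl, zero_mul]
    rw [e2]
    simp

theorem WEY_add {T T' : Module.End k (MvPolynomial σ k)} (h : WEY_P T) (h' : WEY_P T') :
    WEY_P (T + T') := by
  obtain ⟨ι, _, γ, p, hp⟩ := h
  obtain ⟨ι', _, γ', p', hp'⟩ := h'
  refine ⟨ι ⊕ ι', inferInstance, Sum.elim γ γ', Sum.elim p p', fun v => ?_⟩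
  rw [LinearMap.add_apply, hp, hp', Fintype.sum_sum_type]
  rfl

theorem WEY_zero : WEY_P (0 : Module.End k (MvPolynomial σ k)) :=
  ⟨Empty, inferInstance, fun i => i.elim, fun i => i.elim, fun v => by simp⟩

theorem WEY_sum {ι : Type} (s : Finset ι) (T : ι → Module.End k (MvPolynomial σ k))
    (h : ∀ i, WEY_P (T i)) : WEY_P (∑ i ∈ s, T i) := by
  classical
  induction s using Finset.induction_on with
  | empty => simpa using WEY_zero
  | insert i s hi ih =>
    rw [Finset.sum_insert hi]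
    exact WEY_add (h i) ih

theorem WEY_monomial (m : σ →₀ ℕ) (c : k) :
    WEY_P (LinearMap.mulLeft k (monomial m c : MvPolynomial σ k)) := by
  refine ⟨Unit, inferInstance, fun _ l => (m l : ℤ), fun _ => C c, fun v => ?_⟩
  simp only [Finset.univ_unique, Finset.sum_singleton]
  have e1 : desc k (fun l => (m l : ℤ)) = 1 := by
    rw [WEY_desc]
    refine Finset.prod_eq_one fun l _ => ?_
    have : Finset.Ico (0 : ℤ) (-(m l : ℤ)) = ∅ := Finset.Ico_eq_empty (by omega)
    rw [this, Finset.prod_empty]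
  rw [e1, one_mul, eval_C]
  unfold xsh
  rw [LinearMap.mulLeft_apply, monomial_mul, mul_one, smul_monomial, smul_eq_mul, mul_one]
  refine congrArg (fun s => monomial s c) (Finsupp.ext fun l => ?_)
  simp only [Finsupp.add_apply, Finsupp.equivFunOnFinite_symm_apply_apply, Pi.zero_apply]
  omega

theorem WEY_mulLeft (g : MvPolynomial σ k) : WEY_P (LinearMap.mulLeft k g) := by
  have : LinearMap.mulLeft k g = ∑ m ∈ g.support, LinearMap.mulLeft k (monomial m (coeff m g)) := by
    refine LinearMap.ext fun x => ?_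
    rw [LinearMap.sum_apply]
    simp only [LinearMap.mulLeft_apply]
    rw [← Finset.sum_mul]
    conv_lhs => rw [g.as_sum]
  rw [this]
  exact WEY_sum _ _ fun m => WEY_monomial m _

theorem WEY_pderiv (l : σ) : WEY_P ((pderiv l : Derivation k (MvPolynomial σ k)
    (MvPolynomial σ k)) : MvPolynomial σ k →ₗ[k] MvPolynomial σ k) := by
  classical
  refine ⟨Unit, inferInstance, fun _ => -(Pi.single l 1), fun _ => 1, fun v => ?_⟩
  simp only [Finset.univ_unique, Finset.sum_singleton]
  have e1 : desc k (-(Pi.single l (1 : ℤ)) : σ → ℤ) = X l := by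
    rw [WEY_desc, Finset.prod_eq_single l]
    · rw [Pi.neg_apply, Pi.single_eq_same, neg_neg]
      have : Finset.Ico (0 : ℤ) 1 = {0} := rfl
      rw [this, Finset.prod_singleton]
      simp
    · intro j _ hj
      rw [Pi.neg_apply, Pi.single_eq_of_ne hj, neg_zero, neg_zero, Finset.Ico_self,
        Finset.prod_empty]
    · simp
  rw [e1, mul_one, eval_X]
  unfold xsh
  show pderiv l _ = _
  rw [pderiv_monomial, smul_monomial, smul_eq_mul, mul_one, one_mul]
  have e2 : (Finsupp.equivFunOnFinite.symm fun l => ((v l : ℤ) + (0 : σ → ℤ) l).toNat) l = v l := by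
    simp
  rw [e2]
  refine congrArg (fun s => monomial s (v l : k)) (Finsupp.ext fun j => ?_)
  simp only [Finsupp.tsub_apply, Finsupp.equivFunOnFinite_symm_apply_apply, Pi.zero_apply,
    Pi.neg_apply]
  by_cases hj : j = l
  · subst hj
    rw [Finsupp.single_eq_same, Pi.single_eq_same]
    omega
  · rw [Finsupp.single_eq_of_ne hj, Pi.single_eq_of_ne hj]
    omega

theorem WEY_dsum (f : σ → Derivation k (MvPolynomial σ k) (MvPolynomial σ k))
    (x : MvPolynomial σ k) : (∑ l, f l) x = ∑ l, f l x := by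
  have := map_sum (Derivation.coeFnAddMonoidHom (R := k) (A := MvPolynomial σ k)
    (M := MvPolynomial σ k)) f Finset.univ
  have h2 := congrFun this x
  rw [Finset.sum_apply] at h2
  exact h2

theorem WEY_der (δ : Derivation k (MvPolynomial σ k) (MvPolynomial σ k)) :
    WEY_P (δ : MvPolynomial σ k →ₗ[k] MvPolynomial σ k) := by
  classical
  have h1 : δ = ∑ l, δ (X l) • pderiv l := by
    apply MvPolynomial.derivation_ext
    intro i
    rw [WEY_dsum]
    simp only [Derivation.smul_apply, pderiv_X]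
    rw [Finset.sum_eq_single i]
    · simp
    · intro j _ hj
      rw [Pi.single_eq_of_ne hj.symm]
      simp
    · simp
  have h2 : (δ : MvPolynomial σ k →ₗ[k] MvPolynomial σ k) =
      ∑ l, (LinearMap.mulLeft k (δ (X l)) * ((pderiv l : Derivation k (MvPolynomial σ k)
        (MvPolynomial σ k)) : MvPolynomial σ k →ₗ[k] MvPolynomial σ k) :
          Module.End k (MvPolynomial σ k)) := by
    refine LinearMap.ext fun x => ?_
    rw [LinearMap.sum_apply]
    conv_lhs => rw [h1]
    show (∑ l, δ (X l) • pderiv l : Derivation k (MvPolynomial σ k) (MvPolynomial σ k)) x = _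
    rw [WEY_dsum]
    refine Finset.sum_congr rfl fun l _ => ?_
    rfl
  rw [h2]
  exact WEY_sum _ _ fun l => WEY_mul (WEY_mulLeft _) (WEY_pderiv l)

theorem WEY_all (T : Module.End k (MvPolynomial σ k)) (h : IsDiffOp k T) : WEY_P T := by
  unfold IsDiffOp DiffOps at h
  induction h using Algebra.adjoin_induction with
  | mem x hx =>
    rcases hx with ⟨g, rfl⟩ | ⟨δ, rfl⟩
    · exact WEY_mulLeft g
    · exact WEY_der δ
  | algebraMap c =>
    have : algebraMap k (Module.End k (MvPolynomial σ k)) c =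
        LinearMap.mulLeft k (monomial 0 c : MvPolynomial σ k) := by
      refine LinearMap.ext fun x => ?_
      rw [Module.algebraMap_end_apply, LinearMap.mulLeft_apply, ← C_apply, C_mul']
    rw [this]
    exact WEY_monomial 0 c
  | add x y _ _ hx hy => exact WEY_add hx hy
  | mul x y _ _ hx hy => exact WEY_mul hx hy

end

/-- Module WEY. -/
theorem sWey : SWey := by
  classical
  intro σ _ k _ T hT
  obtain ⟨ι, _, γ, p, hp⟩ := WEY_all T hT
  refine ⟨Finset.univ.image γ, fun g => ∑ i ∈ Finset.univ.filter (fun i => γ i = g), p i,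
    fun v => ?_⟩
  rw [hp, ← Finset.sum_fiberwise_of_maps_to (s := Finset.univ) (t := Finset.univ.image γ) (g := γ)
    (fun i _ => Finset.mem_image_of_mem _ (Finset.mem_univ i))]
  refine Finset.sum_congr rfl fun g _ => ?_
  rw [Finset.mul_sum, map_sum, Finset.sum_smul]
  refine Finset.sum_congr rfl fun i hi => ?_
  rw [Finset.mem_filter] at hi
  rw [hi.2]

end Pool.Newt
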